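import Pool.Agent.Helper16_XQ.StmtD
import Pool.Agent.Helper62_AEU.Exp

/-!
Squad XQ, Part D, module MSX: measurability and bounds for the area of the inner parallel bodies,
for the quadratic polynomial and for the areas of the cells.
-/

set_option autoImplicit false

namespace Pool.Agent.XQ.H76

open MeasureTheory Complex Filter Topology ProbabilityTheory Pool.Agent.H16Iso Pool.Agent.H62T
open Pool.Agent.AEU Pool.Agent.AEU.H35 Pool.Agent.AEU.H62 Pool.Agent.H62T.H9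
open Pool.Agent.H16F (Sublin ind)

lemma meas_hst (u : ℂ) : Measurable fun p : ℝ × Sp => Real.sqrt p.1 * hs p.2 u :=
  (Real.continuous_sqrt.measurable.comp measurable_fst).mul ((H62.momS.1 u).comp measurable_snd)

lemma meas_VX {α : Type*} [MeasurableSpace α] (X : Finset HP) (f : α → ℂ → ℝ)
    (hf : ∀ u, Measurable fun a => f a u) : Measurable fun a => VX X (f a) := by
  unfold VX
  have hS : MeasurableSet {p : α × ℂ | ∀ s ∈ X, ip s.1 p.2 ≤ s.2 - f p.1 s.1} := by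
    have : {p : α × ℂ | ∀ s ∈ X, ip s.1 p.2 ≤ s.2 - f p.1 s.1} =
        ⋂ s ∈ X, {p : α × ℂ | ip s.1 p.2 ≤ s.2 - f p.1 s.1} := by
      ext p; simp
    rw [this]
    refine Finset.measurableSet_biInter _ fun s _ => measurableSet_le ?_ ?_
    · exact (measurable_ip s.1).comp measurable_snd
    · exact measurable_const.sub ((hf s.1).comp measurable_fst)
  exact (measurable_measure_prodMk_left hS).ennreal_toReal

lemma meas_Ar {α : Type*} [MeasurableSpace α] (M E : Finset HP) (f : α → ℂ → ℝ)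
    (hf : ∀ u, Measurable fun a => f a u) : Measurable fun a => Ar M E (f a) := by
  unfold Ar
  have hS : MeasurableSet {p : α × ℂ | (∀ s ∈ M, s.2 < ip s.1 p.2 + f p.1 s.1) ∧
      ∀ s ∈ E, ip s.1 p.2 + f p.1 s.1 < s.2} := by
    have : {p : α × ℂ | (∀ s ∈ M, s.2 < ip s.1 p.2 + f p.1 s.1) ∧
        ∀ s ∈ E, ip s.1 p.2 + f p.1 s.1 < s.2} =
        (⋂ s ∈ M, {p : α × ℂ | s.2 < ip s.1 p.2 + f p.1 s.1}) ∩
          ⋂ s ∈ E, {p : α × ℂ | ip s.1 p.2 + f p.1 s.1 < s.2} := by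
      ext p; simp
    rw [this]
    have hm : ∀ s : HP, Measurable fun p : α × ℂ => ip s.1 p.2 + f p.1 s.1 := fun s =>
      ((measurable_ip s.1).comp measurable_snd).add ((hf s.1).comp measurable_fst)
    exact (Finset.measurableSet_biInter _ fun s _ => measurableSet_lt measurable_const (hm s)).inter
      (Finset.measurableSet_biInter _ fun s _ => measurableSet_lt (hm s) measurable_const)
  exact (measurable_measure_prodMk_left hS).ennreal_toReal

lemma vol_le {A : Set ℂ} {r : ℝ} (hr : 0 ≤ r) (hA : ∀ x ∈ A, ‖x‖ ≤ r) :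
    (volume A).toReal ≤ Real.pi * r ^ 2 := by
  have h1 : volume A ≤ volume (Metric.closedBall (0 : ℂ) r) :=
    measure_mono fun x hx => by simpa using hA x hx
  have h3 : volume (Metric.closedBall (0 : ℂ) r) ≠ ⊤ := by
    rw [Complex.volume_closedBall]
    exact ENNReal.mul_ne_top (ENNReal.pow_ne_top ENNReal.ofReal_ne_top) ENNReal.coe_ne_top
  have h2 := ENNReal.toReal_mono h3 h1
  rw [Complex.volume_closedBall, ENNReal.toReal_mul, ENNReal.toReal_pow,
    ENNReal.toReal_ofReal hr] at h2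
  have h4 : ((NNReal.pi : ENNReal)).toReal = Real.pi := rfl
  rw [h4] at h2
  linarith

lemma sum_abs_ge {X : Finset HP} {s : HP} (hs : s ∈ X) (h : ℂ → ℝ) :
    |h s.1| ≤ ∑ s ∈ X, |h s.1| :=
  Finset.single_le_sum (f := fun s : HP => |h s.1|) (fun _ _ => abs_nonneg _) hs

lemma sum_abs_ge' {X : Finset HP} {s : HP} (hs : s ∈ X) : |s.2| ≤ ∑ s ∈ X, |s.2| :=
  Finset.single_le_sum (f := fun s : HP => |s.2|) (fun _ _ => abs_nonneg _) hs

lemma VX_bound {X : Finset HP} (hX : Pg X) : ∃ C : ℝ, 0 ≤ C ∧ ∀ h : ℂ → ℝ,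
    VX X h ≤ C * (1 + ∑ s ∈ X, |h s.1|) ^ 2 := by
  obtain ⟨o, ho⟩ := opn_nonempty hX
  obtain ⟨ρ, hρ⟩ := hX.bdd.exists_norm_le
  have hoρ : ‖o‖ ≤ ρ := hρ o fun s hs => (ho s hs).le
  have hρ0 : 0 ≤ ρ := (norm_nonneg o).trans hoρ
  obtain ⟨ε, hε, hε'⟩ : ∃ ε : ℝ, 0 < ε ∧ ∀ s ∈ X, ip s.1 o + ε ≤ s.2 := by
    have hne : X.Nonempty := Finset.card_pos.1 (by have := hX.card; omega)
    obtain ⟨s0, hs0, hmin⟩ := X.exists_min_image (fun s => s.2 - ip s.1 o) hne
    refine ⟨s0.2 - ip s0.1 o, sub_pos.2 (ho s0 hs0), fun s hs => ?_⟩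
    have := hmin s hs
    linarith
  obtain ⟨A, hA⟩ : ∃ A : ℝ, A = ∑ s ∈ X, |s.2| := ⟨_, rfl⟩
  have hA0 : 0 ≤ A := by rw [hA]; exact Finset.sum_nonneg fun _ _ => abs_nonneg _
  refine ⟨Real.pi * ((1 + A) * (ρ + ‖o‖) / ε) ^ 2, by positivity, fun h => ?_⟩
  obtain ⟨K, hK⟩ : ∃ K : ℝ, K = ∑ s ∈ X, |h s.1| := ⟨_, rfl⟩
  have hK0 : 0 ≤ K := by rw [hK]; exact Finset.sum_nonneg fun _ _ => abs_nonneg _
  rw [← hK]
  obtain ⟨b, hb⟩ : ∃ b : ℝ, b = (1 + A) * (1 + K) := ⟨_, rfl⟩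
  have hb0 : 0 < b := by rw [hb]; positivity
  have key : ∀ x ∈ {x : ℂ | ∀ s ∈ X, ip s.1 x ≤ s.2 - h s.1}, ‖x‖ ≤ b * (ρ + ‖o‖) / ε := by
    intro x hx
    have h1 : o + ((ε / b : ℝ) : ℂ) * x ∈ Cl X := by
      intro s hs
      have h2 : ip s.1 x ≤ b := by
        refine (hx s hs).trans ?_
        have e1 := le_abs_self s.2
        have e2 := neg_abs_le (h s.1)
        have e3 := sum_abs_ge hs h
        have e4 := sum_abs_ge' hs
        rw [← hK] at e3
        rw [← hA] at e4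
        rw [hb]
        nlinarith
      rw [H59.ip_add_right, H59.ip_mul_right]
      have h3 : ε / b * ip s.1 x ≤ ε := by
        calc ε / b * ip s.1 x ≤ ε / b * b := by gcongr
          _ = ε := by field_simp
      have := hε' s hs
      linarith
    have h2 := hρ _ h1
    have h3 : ‖((ε / b : ℝ) : ℂ) * x‖ ≤ ρ + ‖o‖ := by
      calc ‖((ε / b : ℝ) : ℂ) * x‖ = ‖(o + ((ε / b : ℝ) : ℂ) * x) - o‖ := by congr 1; ring
        _ ≤ ‖o + ((ε / b : ℝ) : ℂ) * x‖ + ‖o‖ := norm_sub_le _ _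
        _ ≤ _ := by gcongr
    rw [norm_mul, Complex.norm_real, Real.norm_of_nonneg (by positivity)] at h3
    rw [le_div_iff₀ hε]
    have h4 : ε / b * ‖x‖ * b ≤ (ρ + ‖o‖) * b := by gcongr
    have h5 : ε / b * ‖x‖ * b = ‖x‖ * ε := by field_simp
    linarith
  have h1 := vol_le (by positivity) key
  refine h1.trans (le_of_eq ?_)
  rw [hb]
  field_simp

lemma q_bound {X : Finset HP} {q : (ℂ → ℝ) → ℝ} (hq : Quad X q) : ∃ C : ℝ, 0 ≤ C ∧
    ∀ h : ℂ → ℝ, |q h| ≤ C * (1 + ∑ s ∈ X, |h s.1|) ^ 2 := by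
  obtain ⟨w0, w1, w2, hw⟩ := hq.form
  refine ⟨|w0| + ∑ s ∈ X, |w1 s| + ∑ s ∈ X, ∑ r ∈ X, |w2 s r|, ?_, fun h => ?_⟩
  · have : 0 ≤ ∑ s ∈ X, |w1 s| := Finset.sum_nonneg fun _ _ => abs_nonneg _
    have : 0 ≤ ∑ s ∈ X, ∑ r ∈ X, |w2 s r| :=
      Finset.sum_nonneg fun _ _ => Finset.sum_nonneg fun _ _ => abs_nonneg _
    positivity
  obtain ⟨K, hK⟩ : ∃ K : ℝ, K = ∑ s ∈ X, |h s.1| := ⟨_, rfl⟩
  have hK0 : 0 ≤ K := by rw [hK]; exact Finset.sum_nonneg fun _ _ => abs_nonneg _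
  have hle : ∀ s ∈ X, |h s.1| ≤ K := fun s hs => by rw [hK]; exact sum_abs_ge hs h
  rw [← hK, hw h]
  have e0 : |w0| ≤ |w0| * (1 + K) ^ 2 := by
    have h1 : 0 ≤ |w0| := abs_nonneg _
    have h2 : 1 ≤ (1 + K) ^ 2 := one_le_pow₀ (by linarith)
    exact le_mul_of_one_le_right h1 h2
  have e1 : |∑ s ∈ X, w1 s * h s.1| ≤ (∑ s ∈ X, |w1 s|) * (1 + K) ^ 2 := by
    rw [Finset.sum_mul]
    refine (Finset.abs_sum_le_sum_abs _ _).trans (Finset.sum_le_sum fun s hs => ?_)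
    rw [abs_mul]
    have := hle s hs
    have := abs_nonneg (w1 s)
    refine mul_le_mul_of_nonneg_left ?_ (abs_nonneg _)
    nlinarith
  have e2 : |∑ s ∈ X, ∑ r ∈ X, w2 s r * (h s.1 * h r.1)| ≤
      (∑ s ∈ X, ∑ r ∈ X, |w2 s r|) * (1 + K) ^ 2 := by
    rw [Finset.sum_mul]
    refine (Finset.abs_sum_le_sum_abs _ _).trans (Finset.sum_le_sum fun s hs => ?_)
    rw [Finset.sum_mul]
    refine (Finset.abs_sum_le_sum_abs _ _).trans (Finset.sum_le_sum fun r hr => ?_)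
    rw [abs_mul, abs_mul]
    have h1 := hle s hs
    have h2 := hle r hr
    have h3 : |h s.1| * |h r.1| ≤ K * K := by
      gcongr
    refine mul_le_mul_of_nonneg_left ?_ (abs_nonneg _)
    nlinarith
  calc |w0 + ∑ s ∈ X, w1 s * h s.1 + ∑ s ∈ X, ∑ r ∈ X, w2 s r * (h s.1 * h r.1)|
      ≤ |w0| + |∑ s ∈ X, w1 s * h s.1| + |∑ s ∈ X, ∑ r ∈ X, w2 s r * (h s.1 * h r.1)| :=
        (abs_add_le _ _).trans (add_le_add_left (abs_add_le _ _) _)
    _ ≤ _ := by linarith

lemma meas_q {X : Finset HP} {q : (ℂ → ℝ) → ℝ} (hq : Quad X q) {α : Type*} [MeasurableSpace α]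
    (f : α → ℂ → ℝ) (hf : ∀ u, Measurable fun a => f a u) : Measurable fun a => q (f a) := by
  obtain ⟨w0, w1, w2, hw⟩ := hq.form
  simp only [hw]
  refine (measurable_const.add ?_).add ?_
  · exact Finset.measurable_sum _ fun s _ => (hf s.1).const_mul _
  · exact Finset.measurable_sum _ fun s _ => Finset.measurable_sum _ fun r _ =>
      ((hf s.1).mul (hf r.1)).const_mul _

lemma norm_le_of_ip {a b x : ℂ} (ha : ‖a‖ = 1) (hb : ‖b‖ = 1) :
    |dt a b| * ‖x‖ ≤ |ip a x| + |ip b x| := by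
  have h1 : ((dt a b : ℝ) : ℂ) * x = -I * (((ip a x : ℝ) : ℂ) * b - ((ip b x : ℝ) : ℂ) * a) := by
    apply Complex.ext
    · simp [dt, ip]; ring
    · simp [dt, ip]; ring
  have h2 : ‖((dt a b : ℝ) : ℂ) * x‖ ≤ |ip a x| + |ip b x| := by
    rw [h1, norm_mul, norm_neg, Complex.norm_I, one_mul]
    refine (norm_sub_le _ _).trans ?_
    rw [norm_mul, norm_mul, Complex.norm_real, Complex.norm_real, ha, hb, mul_one, mul_one,
      Real.norm_eq_abs, Real.norm_eq_abs]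
  rwa [norm_mul, Complex.norm_real, Real.norm_eq_abs] at h2

/-- the translations which belong to a cell -/
lemma cell_pos {F : Finset HP} {c : HP → ℝ} (hc : ∀ s ∈ F, c s ≠ 0) {h : ℂ → ℝ} {x : ℂ}
    (hx : (∀ s ∈ Mp F c, s.2 < ip s.1 x + h s.1) ∧ ∀ s ∈ Mm F c, ip s.1 x + h s.1 < s.2) :
    ∀ s ∈ F, 0 < c s * (ip s.1 x + h s.1 - s.2) := by
  classical
  intro s hs
  rcases lt_or_gt_of_ne (hc s hs) with h1 | h1
  · have h2 := hx.2 s (by unfold Mm; exact Finset.mem_filter.2 ⟨hs, h1⟩)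
    exact mul_pos_of_neg_of_neg h1 (by linarith)
  · have h2 := hx.1 s (by unfold Mp; exact Finset.mem_filter.2 ⟨hs, h1⟩)
    exact mul_pos h1 (by linarith)

lemma cell_sum {F : Finset HP} {c : HP → ℝ} (hd : ∑ s ∈ F, ((c s : ℝ) : ℂ) * s.1 = 0)
    (h : ℂ → ℝ) (x : ℂ) :
    ∑ s ∈ F, c s * (ip s.1 x + h s.1 - s.2) = ∑ s ∈ F, c s * h s.1 - ∑ s ∈ F, c s * s.2 := by
  have h1 : ∑ s ∈ F, c s * ip s.1 x = 0 := by
    have h2 : ip (∑ s ∈ F, ((c s : ℝ) : ℂ) * s.1) x = ∑ s ∈ F, c s * ip s.1 x := by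
      rw [H59.ip_sum_left]
      exact Finset.sum_congr rfl fun s _ => H59.ip_mul_left _ _ _
    rw [← h2, hd]
    unfold ip; simp
  have h2 : ∑ s ∈ F, c s * (ip s.1 x + h s.1 - s.2) =
      ∑ s ∈ F, c s * ip s.1 x + (∑ s ∈ F, c s * h s.1 - ∑ s ∈ F, c s * s.2) := by
    rw [← Finset.sum_sub_distrib, ← Finset.sum_add_distrib]
    exact Finset.sum_congr rfl fun s _ => by ring
  rw [h2, h1, zero_add]

/-- MSX -/
theorem msx : MsxStatement := by
  refine ⟨fun X q hX hq => ⟨?_, ?_, ?_⟩, fun F c h4 hu hN hc hd hpos => ⟨?_, ?_⟩⟩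
  · exact meas_VX X (fun (p : ℝ × Sp) u => Real.sqrt p.1 * hs p.2 u) meas_hst
  · exact meas_q hq (fun (p : ℝ × Sp) u => Real.sqrt p.1 * hs p.2 u) meas_hst
  · obtain ⟨C1, hC1, h1⟩ := VX_bound hX
    obtain ⟨C2, hC2, h2⟩ := q_bound hq
    refine ⟨C1 + C2, fun h => ?_⟩
    have h3 : |VX X h| = VX X h := abs_of_nonneg ENNReal.toReal_nonneg
    rw [h3, add_mul]
    exact add_le_add (h1 h) (h2 h)
  · exact meas_Ar _ _ (fun (p : ℝ × Sp) u => Real.sqrt p.1 * hs p.2 u) meas_hst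
  · obtain ⟨M, hM⟩ : ∃ M : ℝ, M = ∑ s ∈ F, |c s| * (1 + |s.2|) := ⟨_, rfl⟩
    have hM0 : 0 ≤ M := by
      rw [hM]; exact Finset.sum_nonneg fun _ _ => by positivity
    obtain ⟨a, ha, b, hb, hab⟩ := Finset.one_lt_card.1 (by omega : 1 < F.card)
    have hdt : 0 < |dt a.1 b.1| := abs_pos.2 (hN a ha b hb hab)
    have hca : 0 < |c a| := abs_pos.2 (hc a ha)
    have hcb : 0 < |c b| := abs_pos.2 (hc b hb)
    refine ⟨Real.pi * ((2 * M / |c a| + 2 * M / |c b|) / |dt a.1 b.1|) ^ 2, fun h => ⟨?_, ?_⟩⟩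
    · obtain ⟨K, hK⟩ : ∃ K : ℝ, K = ∑ s ∈ F, |h s.1| := ⟨_, rfl⟩
      have hK0 : 0 ≤ K := by rw [hK]; exact Finset.sum_nonneg fun _ _ => abs_nonneg _
      rw [← hK]
      have hT : ∀ s ∈ F, |c s| * (|h s.1| + |s.2|) ≤ |c s| * (1 + |s.2|) * (1 + K) := by
        intro s hs
        rw [mul_assoc]
        refine mul_le_mul_of_nonneg_left ?_ (abs_nonneg _)
        have := sum_abs_ge hs h
        have := abs_nonneg s.2
        have := abs_nonneg (h s.1)
        rw [← hK] at *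
        nlinarith
      have hT2 : ∀ s ∈ F, |c s| * (1 + |s.2|) * (1 + K) ≤ M * (1 + K) := by
        intro s hs
        refine mul_le_mul_of_nonneg_right ?_ (by positivity)
        rw [hM]
        exact Finset.single_le_sum (f := fun s : HP => |c s| * (1 + |s.2|))
          (fun _ _ => by positivity) hs
      have key : ∀ x ∈ {x : ℂ | (∀ s ∈ Mp F c, s.2 < ip s.1 x + h s.1) ∧
          ∀ s ∈ Mm F c, ip s.1 x + h s.1 < s.2},
          ‖x‖ ≤ (2 * M / |c a| + 2 * M / |c b|) / |dt a.1 b.1| * (1 + K) := by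
        intro x hx
        have h1 := cell_pos hc hx
        have h2 := cell_sum hd h x
        have h3 : ∑ s ∈ F, c s * h s.1 - ∑ s ∈ F, c s * s.2 ≤ M * (1 + K) := by
          rw [← Finset.sum_sub_distrib, hM, Finset.sum_mul]
          refine Finset.sum_le_sum fun s hs => ?_
          refine le_trans ?_ (hT s hs)
          rw [← mul_sub]
          refine (le_abs_self _).trans ?_
          rw [abs_mul]
          exact mul_le_mul_of_nonneg_left (abs_sub _ _) (abs_nonneg _)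
        have h4 : ∀ s ∈ F, |ip s.1 x| ≤ 2 * M / |c s| * (1 + K) := by
          intro s hs
          have h5 : c s * (ip s.1 x + h s.1 - s.2) ≤ M * (1 + K) := by
            refine le_trans ?_ h3
            rw [← h2]
            exact Finset.single_le_sum (f := fun s : HP => c s * (ip s.1 x + h s.1 - s.2))
              (fun r hr => (h1 r hr).le) hs
          have h6 := h1 s hs
          have h7 : |c s| * |ip s.1 x| ≤ 2 * M * (1 + K) := by
            have h8 : |c s| * |ip s.1 x| ≤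
                c s * (ip s.1 x + h s.1 - s.2) + |c s| * (|h s.1| + |s.2|) := by
              calc |c s| * |ip s.1 x| = |c s * (ip s.1 x + h s.1 - s.2) - c s * (h s.1 - s.2)| := by
                    rw [← abs_mul]; congr 1; ring
                _ ≤ |c s * (ip s.1 x + h s.1 - s.2)| + |c s * (h s.1 - s.2)| := abs_sub _ _
                _ ≤ _ := by
                  rw [abs_of_pos h6, abs_mul (c s) (h s.1 - s.2)]
                  gcongr
                  exact abs_sub _ _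
            have := hT s hs
            have := hT2 s hs
            linarith
          have hcs : 0 < |c s| := abs_pos.2 (hc s hs)
          have h9 : 2 * M / |c s| * (1 + K) = 2 * M * (1 + K) / |c s| := by ring
          rw [h9, le_div_iff₀ hcs]
          linarith
        have h5 := norm_le_of_ip (x := x) (hu a ha) (hu b hb)
        have h6 := h4 a ha
        have h7 := h4 b hb
        have h8 : (2 * M / |c a| + 2 * M / |c b|) / |dt a.1 b.1| * (1 + K) =
            (2 * M / |c a| * (1 + K) + 2 * M / |c b| * (1 + K)) / |dt a.1 b.1| := by ring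
        rw [h8, le_div_iff₀ hdt]
        linarith
      have h1 := vol_le (by positivity) key
      refine h1.trans (le_of_eq ?_)
      ring
    · intro hne
      have h1 : ({x : ℂ | (∀ s ∈ Mp F c, s.2 < ip s.1 x + h s.1) ∧
          ∀ s ∈ Mm F c, ip s.1 x + h s.1 < s.2}).Nonempty := by
        by_contra hcon
        rw [Set.not_nonempty_iff_eq_empty] at hcon
        apply hne
        unfold Ar
        rw [hcon, measure_empty, ENNReal.toReal_zero]
      obtain ⟨x, hx⟩ := h1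
      have h2 := cell_pos hc hx
      have h3 := cell_sum hd h x
      have h4 : 0 < ∑ s ∈ F, c s * (ip s.1 x + h s.1 - s.2) :=
        Finset.sum_pos h2 ⟨a, ha⟩
      linarith

end Pool.Agent.XQ.H76
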