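import Pool.Agent.Helper76_XQ.Tcm

/-!
Squad XQ, part E4, module TGM: the flux in the unfolded picture as a difference of two masses
(helper76).
-/

set_option autoImplicit false

namespace Pool.Agent.XQ.K4.H76

open MeasureTheory Complex Filter Topology Pool.Agent.H62T Pool.Agent.H16F Pool.Agent.XQ.K4
open scoped ENNReal NNReal

variable {u : Fin 4 → ℂ} {h : Fin 4 → ℝ} {O E : Finset (Fin 4)}

theorem kME_nonneg {t : ℝ} (ht : 0 < t) (x y : ℂ) : 0 ≤ kME u h O E t x y := by
  rw [kME_eq]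
  exact Finset.sum_nonneg fun A _ => kA_nonneg u h ht x y A

theorem kME_le {t : ℝ} (ht : 0 < t) (x y : ℂ) : kME u h O E t x y ≤ G t (x - y) := by
  rw [kME_eq]
  have h1 := pB_eq u h ∅ t x y
  have h2 : pB u h ∅ t x y = G t (x - y) := by
    unfold pB
    have : Dm u h ∅ = Set.univ := by
      ext x
      simp [Dm]
    rw [this]
    exact Pool.Agent.H60K.H44.uni t x y ht
  rw [← h2, h1]
  refine Finset.sum_le_sum_of_subset_of_nonneg ?_ fun A _ _ => kA_nonneg u h ht x y A
  intro A _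
  simp

theorem kME_meas (t : ℝ) :
    Measurable fun p : ℂ × ℂ => kME u h O E t (rf u h 3 p.2) (rf u h 2 p.1) := by
  simp only [kME_eq]
  refine Finset.measurable_fun_sum _ fun A _ => ?_
  exact kA_meas_comp u h A measurable_const (measurable_rf_comp u h 3 measurable_snd)
    (measurable_rf_comp u h 2 measurable_fst)

theorem G_le {t : ℝ} (ht : 0 < t) (z : ℂ) : G t z ≤ 1 / (4 * Real.pi * t) := by
  unfold G
  have h1 : 0 < 4 * Real.pi * t := by positivity
  gcongr
  rw [Real.exp_le_one_iff]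
  have : 0 ≤ ‖z‖ ^ 2 / (4 * t) := by positivity
  have e : -‖z‖ ^ 2 / (4 * t) = -(‖z‖ ^ 2 / (4 * t)) := by ring
  rw [e]
  linarith

/-- the cut-off increases -/
def Upc (C : Set ℂ) (x y : ℂ) : Prop := x ∉ C ∧ y ∈ C

/-- the cut-off decreases -/
def Dnc (C : Set ℂ) (x y : ℂ) : Prop := x ∈ C ∧ y ∉ C

open Classical in
theorem chi_sub' {C : Set ℂ} {x y : ℂ} (c : ℝ) : (chi C y - chi C x) * c
    = (if Upc C x y then c else 0) - if Dnc C x y then c else 0 := by
  rw [chi_sub]
  refine congrArg₂ (fun a b : ℝ => a - b) ?_ ?_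
  · exact ite_dec _ _ _ _
  · exact ite_dec _ _ _ _

open Classical in
/-- iterated integral as an integral over the plane of pairs -/
theorem LKr_eq {a t : ℝ} {S : ℂ → ℂ → Prop} (hS : MeasurableSet {p : ℂ × ℂ | S p.1 p.2}) :
    LKr u h O E a t S = ∫⁻ p : ℂ × ℂ, if S p.1 p.2 then ENNReal.ofReal (G a (p.1 - p.2))
      * ENNReal.ofReal (kME u h O E (t - a) (rf u h 3 p.2) (rf u h 2 p.1)) else 0 := by
  have hG : Measurable fun p : ℂ × ℂ => ENNReal.ofReal (G a (p.1 - p.2)) := by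
    unfold G
    fun_prop
  have hm : Measurable fun p : ℂ × ℂ => if S p.1 p.2 then ENNReal.ofReal (G a (p.1 - p.2))
      * ENNReal.ofReal (kME u h O E (t - a) (rf u h 3 p.2) (rf u h 2 p.1)) else 0 :=
    Measurable.ite hS (hG.mul (kME_meas (t - a)).ennreal_ofReal) measurable_const
  have e := lintegral_prod (μ := (volume : Measure ℂ)) (ν := (volume : Measure ℂ)) _
    hm.aemeasurable
  unfold LKr
  refine Eq.trans ?_ e.symm
  exact lintegral_congr fun x => lintegral_congr fun y => ite_dec _ _ _ _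

open Classical in
theorem main_eq {a s R : ℝ} (ha : 0 < a) (hs : 0 < s) {C W : Set ℂ} (hC : MeasurableSet C)
    (hWm : MeasurableSet W) (hR : ∀ x ∈ W, ‖x‖ ≤ R) :
    (∀ P : ℂ → ℂ → Prop, (∫⁻ p : ℂ × ℂ, if (p.1 ∈ W ∧ p.2 ∈ W) ∧ P p.1 p.2
      then ENNReal.ofReal (G a (p.1 - p.2)) *
        ENNReal.ofReal (kME u h O E s (rf u h 3 p.2) (rf u h 2 p.1))
      else 0) ≠ ⊤) ∧
    ∫ x in W, ∫ y in W, G a (x - y) * (chi C y - chi C x)
        * kME u h O E s (rf u h 3 y) (rf u h 2 x)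
      = (∫⁻ p : ℂ × ℂ, if (p.1 ∈ W ∧ p.2 ∈ W) ∧ Upc C p.1 p.2 then
          ENNReal.ofReal (G a (p.1 - p.2)) *
            ENNReal.ofReal (kME u h O E s (rf u h 3 p.2) (rf u h 2 p.1))
          else 0).toReal
        - (∫⁻ p : ℂ × ℂ, if (p.1 ∈ W ∧ p.2 ∈ W) ∧ Dnc C p.1 p.2 then
          ENNReal.ofReal (G a (p.1 - p.2)) *
            ENNReal.ofReal (kME u h O E s (rf u h 3 p.2) (rf u h 2 p.1))
          else 0).toReal := by
  have hfin : volume W < ⊤ := by
    have hsub : W ⊆ Metric.closedBall 0 R := by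
      intro x hx
      rw [mem_closedBall_zero_iff]
      exact hR x hx
    exact (measure_mono hsub).trans_lt measure_closedBall_lt_top
  set V : Set (ℂ × ℂ) := W ×ˢ W with hV
  have hVm : MeasurableSet V := hWm.prod hWm
  have hVfin : volume V < ⊤ := by
    rw [hV, Measure.volume_eq_prod, Measure.prod_prod]
    exact ENNReal.mul_lt_top hfin hfin
  set f : ℂ × ℂ → ℝ := fun p => G a (p.1 - p.2) * kME u h O E s (rf u h 3 p.2) (rf u h 2 p.1)
    with hf
  have hGn : ∀ z, 0 ≤ G a z := fun z => Pool.Agent.AEU.H44.G_nonneg ha z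
  have hfn : ∀ p, 0 ≤ f p := fun p => mul_nonneg (hGn _) (kME_nonneg hs _ _)
  have hGm : Measurable fun p : ℂ × ℂ => G a (p.1 - p.2) := by
    unfold G
    fun_prop
  have hfm : Measurable f := hGm.mul (kME_meas s)
  set D : ℝ := 1 / (4 * Real.pi * a) * (1 / (4 * Real.pi * s)) with hD
  have hfC : ∀ p, f p ≤ D := by
    intro p
    refine mul_le_mul (G_le ha _) ((kME_le hs _ _).trans (G_le hs _)) (kME_nonneg hs _ _) ?_
    positivity
  have hfW : IntegrableOn f V := by
    refine Measure.integrableOn_of_bounded (M := D) hVfin.ne hfm.aestronglyMeasurable ?_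
    refine Eventually.of_forall fun p => ?_
    rw [Real.norm_of_nonneg (hfn p)]
    exact hfC p
  -- pieces
  have key : ∀ P : ℂ × ℂ → Prop, MeasurableSet {p | P p} →
      IntegrableOn (fun p => if P p then f p else 0) V ∧
      ∫ p in V, (if P p then f p else 0)
        = (∫⁻ p : ℂ × ℂ, if (p.1 ∈ W ∧ p.2 ∈ W) ∧ P p then
          ENNReal.ofReal (G a (p.1 - p.2)) *
            ENNReal.ofReal (kME u h O E s (rf u h 3 p.2) (rf u h 2 p.1))
          else 0).toReal := by
    intro P hP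
    have e1 : (fun p => if P p then f p else 0) = {p | P p}.indicator f := by
      funext p
      rw [Set.indicator_apply]
      rfl
    constructor
    · rw [e1]
      exact hfW.indicator hP
    · rw [integral_eq_lintegral_of_nonneg_ae]
      · congr 1
        rw [← lintegral_indicator hVm]
        refine lintegral_congr fun p => ?_
        by_cases c : P p
        · by_cases c2 : p ∈ V
          · rw [Set.indicator_of_mem c2, if_pos c, if_pos ⟨⟨c2.1, c2.2⟩, c⟩]
            exact ENNReal.ofReal_mul (hGn _)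
          · rw [Set.indicator_of_notMem c2, if_neg (fun h => c2 ⟨h.1.1, h.1.2⟩)]
        · rw [if_neg (fun h => c h.2)]
          by_cases c2 : p ∈ V
          · rw [Set.indicator_of_mem c2, if_neg c, ENNReal.ofReal_zero]
          · rw [Set.indicator_of_notMem c2]
      · refine Eventually.of_forall fun p => ?_
        show 0 ≤ if P p then f p else 0
        split_ifs
        · exact hfn p
        · exact le_rfl
      · rw [e1]
        exact (hfm.indicator hP).aestronglyMeasurable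
  refine ⟨fun P => ?_, ?_⟩
  · have h1 : (∫⁻ p : ℂ × ℂ, if (p.1 ∈ W ∧ p.2 ∈ W) ∧ P p.1 p.2
      then ENNReal.ofReal (G a (p.1 - p.2)) *
        ENNReal.ofReal (kME u h O E s (rf u h 3 p.2) (rf u h 2 p.1))
      else 0) ≤ ∫⁻ _ in V, ENNReal.ofReal D := by
      rw [← lintegral_indicator hVm]
      refine lintegral_mono fun p => ?_
      show (if (p.1 ∈ W ∧ p.2 ∈ W) ∧ P p.1 p.2
        then ENNReal.ofReal (G a (p.1 - p.2)) *
          ENNReal.ofReal (kME u h O E s (rf u h 3 p.2) (rf u h 2 p.1))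
        else 0) ≤ V.indicator (fun _ => ENNReal.ofReal D) p
      by_cases c : (p.1 ∈ W ∧ p.2 ∈ W) ∧ P p.1 p.2
      · have hpW : p ∈ V := ⟨c.1.1, c.1.2⟩
        rw [if_pos c, Set.indicator_of_mem hpW, ← ENNReal.ofReal_mul (hGn _)]
        exact ENNReal.ofReal_le_ofReal (hfC p)
      · rw [if_neg c]
        exact zero_le
    refine ne_top_of_le_ne_top ?_ h1
    rw [setLIntegral_const]
    exact ENNReal.mul_ne_top ENNReal.ofReal_ne_top hVfin.ne
  · obtain ⟨k1, k2⟩ := key (fun p => Upc C p.1 p.2) (up_meas hC)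
    obtain ⟨k3, k4⟩ := key (fun p => Dnc C p.1 p.2) (dn_meas hC)
    have e1 : ∀ x y : ℂ, G a (x - y) * (chi C y - chi C x)
          * kME u h O E s (rf u h 3 y) (rf u h 2 x)
        = (if Upc C x y then f (x, y) else 0) - if Dnc C x y then f (x, y) else 0 := by
      intro x y
      rw [← chi_sub']
      show _ = (chi C y - chi C x) * (G a (x - y) * kME u h O E s (rf u h 3 y) (rf u h 2 x))
      ring
    simp only [e1]
    have e2 := setIntegral_prod (μ := (volume : Measure ℂ)) (ν := (volume : Measure ℂ))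
      (s := W) (t := W)
      (fun p : ℂ × ℂ => (if Upc C p.1 p.2 then f p else 0)
        - if Dnc C p.1 p.2 then f p else 0)
      (k1.sub k3)
    refine Eq.trans e2.symm ?_
    refine Eq.trans (integral_sub k1 k3) ?_
    exact congrArg₂ (fun a b : ℝ => a - b) k2 k4

/-- module TGM -/
theorem tgm : TgmStatement := by
  classical
  intro u h O E C W R a t hu ha hat hC hW hR
  have hs : 0 < t - a := by linarith
  obtain ⟨n1, n2⟩ := main_eq (u := u) (h := h) (O := O) (E := E) ha hs hC hW hR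
  have hWW : MeasurableSet {p : ℂ × ℂ | p.1 ∈ W ∧ p.2 ∈ W} :=
    (measurable_fst hW).inter (measurable_snd hW)
  have hSp : MeasurableSet {p : ℂ × ℂ | (p.1 ∈ W ∧ p.2 ∈ W) ∧ p.1 ∉ C ∧ p.2 ∈ C} :=
    hWW.inter (up_meas hC)
  have hSm : MeasurableSet {p : ℂ × ℂ | (p.1 ∈ W ∧ p.2 ∈ W) ∧ p.1 ∈ C ∧ p.2 ∉ C} :=
    hWW.inter (dn_meas hC)
  have l1 := LKr_eq (u := u) (h := h) (O := O) (E := E) (a := a) (t := t)
    (S := fun x y => (x ∈ W ∧ y ∈ W) ∧ x ∉ C ∧ y ∈ C) hSp
  have l2 := LKr_eq (u := u) (h := h) (O := O) (E := E) (a := a) (t := t)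
    (S := fun x y => (x ∈ W ∧ y ∈ W) ∧ x ∈ C ∧ y ∉ C) hSm
  have q1 : LKr u h O E a t (fun x y => (x ∈ W ∧ y ∈ W) ∧ x ∉ C ∧ y ∈ C)
      = ∫⁻ p : ℂ × ℂ, if (p.1 ∈ W ∧ p.2 ∈ W) ∧ Upc C p.1 p.2 then
          ENNReal.ofReal (G a (p.1 - p.2)) *
            ENNReal.ofReal (kME u h O E (t - a) (rf u h 3 p.2) (rf u h 2 p.1)) else 0 :=
    l1.trans (lintegral_congr fun p => ite_dec _ _ _ _)
  have q2 : LKr u h O E a t (fun x y => (x ∈ W ∧ y ∈ W) ∧ x ∈ C ∧ y ∉ C)
      = ∫⁻ p : ℂ × ℂ, if (p.1 ∈ W ∧ p.2 ∈ W) ∧ Dnc C p.1 p.2 then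
          ENNReal.ofReal (G a (p.1 - p.2)) *
            ENNReal.ofReal (kME u h O E (t - a) (rf u h 3 p.2) (rf u h 2 p.1)) else 0 :=
    l2.trans (lintegral_congr fun p => ite_dec _ _ _ _)
  refine ⟨?_, ?_, ?_⟩
  · rw [q1]
    exact n1 (fun x y => Upc C x y)
  · rw [q2]
    exact n1 (fun x y => Dnc C x y)
  · rw [q1, q2]
    exact n2

end Pool.Agent.XQ.K4.H76
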