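import Pool.Agent.Helper76_XQ.Msx

/-!
Squad XQ, Part D, module EXH: isospectral polygons have the same remainder.
-/

set_option autoImplicit false

namespace Pool.Agent.XQ.H76

open MeasureTheory Complex Filter Topology ProbabilityTheory Pool.Agent.H16Iso Pool.Agent.H62T
open Pool.Agent.AEU Pool.Agent.AEU.H35 Pool.Agent.AEU.H62 Pool.Agent.H62T.H9
open Pool.Agent.H16F (Sublin ind)

/-- the heat trace of a convex polygon -/
lemma heat_VX {P : Finset HP} (hP : Pg P) {t : ℝ} (ht : 0 < t) :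
    4 * Real.pi * t * ∑' k, Real.exp (-(dirEig (opn P) k * t))
      = ∫ ω, VX P (fun u => Real.sqrt t * hs ω u) ∂PP := by
  classical
  obtain ⟨n, u, H, hu⟩ : ∃ (n : ℕ) (u : Fin n → ℂ) (H : Fin n → ℝ),
      ∀ p : ℂ → ℝ → Prop, (∀ i, p (u i) (H i)) ↔ ∀ s ∈ P, p s.1 s.2 := by
    refine ⟨P.card, fun i => (P.equivFin.symm i).1.1, fun i => (P.equivFin.symm i).1.2,
      fun p => ⟨fun h s hs => ?_, fun h i => h _ (P.equivFin.symm i).2⟩⟩
    have := h (P.equivFin ⟨s, hs⟩)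
    simpa using this
  have hPoly : opn P = Poly u H := by
    ext x
    exact (hu fun a b => ip a x < b).symm
  have hunit : ∀ i, ‖u i‖ = 1 := (hu fun a _ => ‖a‖ = 1).2 hP.unit
  have hb : Bornology.IsBounded (Poly u H) := by
    rw [← hPoly]
    exact hP.bdd.subset fun x hx s hs => (hx s hs).le
  have hne : (Poly u H).Nonempty := by rw [← hPoly]; exact opn_nonempty hP
  have hVol : ∀ h : ℂ → ℝ, Vol u H (fun i => h (u i)) = VX P h := by
    intro h
    unfold Vol VX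
    congr 2
    ext x
    exact hu fun a b => ip a x ≤ b - h a
  rw [hPoly, heat_all n u H hunit hb hne t ht]
  exact integral_congr_ae (Eventually.of_forall fun ω => hVol fun w => Real.sqrt t * hs ω w)

/-- the mean of the quadratic polynomial -/
lemma mean_q {P : Finset HP} {q : (ℂ → ℝ) → ℝ} (hq : Quad P q) : ∃ a0 a1 a2 : ℝ,
    ∀ t : ℝ, 0 < t → Integrable (fun ω => q fun u => Real.sqrt t * hs ω u) PP ∧
      ∫ ω, q (fun u => Real.sqrt t * hs ω u) ∂PP
        = a0 + a1 * Real.sqrt t + a2 * Real.sqrt t ^ 2 := by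
  obtain ⟨w0, w1, w2, hw⟩ := hq.form
  have a1 : AM fun ω => ∑ s ∈ P, w1 s * hs ω s.1 :=
    AM.sum _ fun s _ => (am_hs s.1).const_mul _
  have a2 : AM fun ω => ∑ s ∈ P, ∑ r ∈ P, w2 s r * (hs ω s.1 * hs ω r.1) :=
    AM.sum _ fun s _ => AM.sum _ fun r _ => ((am_hs s.1).mul (am_hs r.1)).const_mul _
  refine ⟨w0, ∫ ω, ∑ s ∈ P, w1 s * hs ω s.1 ∂PP,
    ∫ ω, ∑ s ∈ P, ∑ r ∈ P, w2 s r * (hs ω s.1 * hs ω r.1) ∂PP, fun t ht => ?_⟩
  have key : (fun ω => q fun u => Real.sqrt t * hs ω u) = fun ω =>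
      (w0 + Real.sqrt t * ∑ s ∈ P, w1 s * hs ω s.1) +
        Real.sqrt t ^ 2 * ∑ s ∈ P, ∑ r ∈ P, w2 s r * (hs ω s.1 * hs ω r.1) := by
    funext ω
    rw [hw]
    have e1 : ∑ s ∈ P, w1 s * (Real.sqrt t * hs ω s.1) =
        Real.sqrt t * ∑ s ∈ P, w1 s * hs ω s.1 := by
      rw [Finset.mul_sum]
      exact Finset.sum_congr rfl fun s _ => by ring
    have e2 : ∑ s ∈ P, ∑ r ∈ P, w2 s r * (Real.sqrt t * hs ω s.1 * (Real.sqrt t * hs ω r.1)) =
        Real.sqrt t ^ 2 * ∑ s ∈ P, ∑ r ∈ P, w2 s r * (hs ω s.1 * hs ω r.1) := by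
      rw [Finset.mul_sum]
      refine Finset.sum_congr rfl fun s _ => ?_
      rw [Finset.mul_sum]
      exact Finset.sum_congr rfl fun r _ => by ring
    rw [e1, e2]
  have i1 : Integrable (fun ω => w0 + Real.sqrt t * ∑ s ∈ P, w1 s * hs ω s.1) PP :=
    ((AM.const w0).add (a1.const_mul _)).integrable
  have i2 : Integrable (fun ω => Real.sqrt t ^ 2 *
      ∑ s ∈ P, ∑ r ∈ P, w2 s r * (hs ω s.1 * hs ω r.1)) PP :=
    (a2.const_mul _).integrable
  rw [key]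
  refine ⟨i1.add i2, ?_⟩
  rw [integral_add i1 i2, integral_add (integrable_const _) (a1.const_mul _).integrable,
    integral_const_mul, integral_const_mul]
  simp only [integral_const, probReal_univ, smul_eq_mul, one_mul]
  ring

lemma am_size (P : Finset HP) (s : ℝ) :
    AM fun ω => (1 + ∑ r ∈ P, |s * hs ω r.1|) ^ 2 := by
  have e : (fun ω => (1 + ∑ r ∈ P, |s * hs ω r.1|) ^ 2) = fun ω =>
      (1 + ∑ r ∈ P, |s| * hs ω r.1) ^ 2 := by
    funext ω
    congr 2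
    refine Finset.sum_congr rfl fun r _ => ?_
    rw [abs_mul, abs_of_nonneg (H62.momS.2.1 r.1 ω)]
  rw [e]
  exact AM.pow ((AM.const 1).add (AM.sum _ fun r _ => (am_hs r.1).const_mul _)) 2

/-- the area is integrable -/
lemma int_VX {P : Finset HP} (hP : Pg P) (t : ℝ) :
    Integrable (fun ω => VX P fun u => Real.sqrt t * hs ω u) PP := by
  obtain ⟨C, hC, h1⟩ := VX_bound hP
  refine Integrable.mono' ((am_size P (Real.sqrt t)).integrable.const_mul C)
    (meas_VX P (fun (ω : Sp) u => Real.sqrt t * hs ω u)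
      fun u => (H62.momS.1 u).const_mul _).aestronglyMeasurable ?_
  refine Eventually.of_forall fun ω => ?_
  have h2 : ‖VX P fun u => Real.sqrt t * hs ω u‖ = VX P fun u => Real.sqrt t * hs ω u :=
    Real.norm_of_nonneg ENNReal.toReal_nonneg
  rw [h2]
  exact h1 _

/-- the remainder is small for short times -/
lemma rem_small {P : Finset HP} {q : (ℂ → ℝ) → ℝ} (hP : Pg P) (hq : Quad P q) :
    ∃ C : ℝ, ∀ s : ℝ, 0 < s → s ≤ 1 →
      |∫ ω, (VX P (fun u => s * hs ω u) - q fun u => s * hs ω u) ∂PP| ≤ C * s ^ 3 := by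
  obtain ⟨C1, hC1, h1⟩ := VX_bound hP
  obtain ⟨C2, hC2, h2⟩ := q_bound hq
  obtain ⟨r, hr, hsm⟩ := hq.small
  have hm : AM fun ω => (C1 + C2) * (1 + ∑ r ∈ P, |1 * hs ω r.1|) ^ 2 *
      (r⁻¹ * ∑ r ∈ P, |1 * hs ω r.1|) ^ 3 := by
    have e : (fun ω => ∑ r ∈ P, |1 * hs ω r.1|) = fun ω => ∑ r ∈ P, hs ω r.1 := by
      funext ω
      refine Finset.sum_congr rfl fun r _ => ?_
      rw [one_mul, abs_of_nonneg (H62.momS.2.1 r.1 ω)]
    have h3 : AM fun ω => ∑ r ∈ P, |1 * hs ω r.1| := by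
      rw [e]
      exact AM.sum _ fun r _ => am_hs r.1
    exact ((am_size P 1).const_mul _).mul (AM.pow (h3.const_mul _) 3)
  refine ⟨∫ ω, (C1 + C2) * (1 + ∑ r ∈ P, |1 * hs ω r.1|) ^ 2 *
      (r⁻¹ * ∑ r ∈ P, |1 * hs ω r.1|) ^ 3 ∂PP, fun s hs0 hs1 => ?_⟩
  rw [← integral_mul_const]
  rw [← Real.norm_eq_abs]
  refine (norm_integral_le_integral_norm _).trans ?_
  refine integral_mono_of_nonneg (Eventually.of_forall fun _ => norm_nonneg _)
    (hm.integrable.mul_const _) ?_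
  filter_upwards [H16F.H13.ae_sublin] with ω hsub
  have hK : ∀ u ∈ P, |hs ω u.1| ≤ ∑ r ∈ P, |1 * hs ω r.1| := by
    intro u hu
    have := Finset.single_le_sum (f := fun r : HP => |1 * hs ω r.1|)
      (fun _ _ => abs_nonneg _) hu
    simpa using this
  have hK0 : 0 ≤ ∑ r ∈ P, |1 * hs ω r.1| := Finset.sum_nonneg fun _ _ => abs_nonneg _
  by_cases hcase : ∀ u ∈ P, |s * hs ω u.1| ≤ r
  · have := hsm (fun u => s * hs ω u) (sublin_smul hsub hs0.le) hcase
    rw [this, sub_self, norm_zero]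
    positivity
  · push Not at hcase
    obtain ⟨u, hu, hlt⟩ := hcase
    have h3 : r ≤ s * ∑ r ∈ P, |1 * hs ω r.1| := by
      refine hlt.le.trans ?_
      rw [abs_mul, abs_of_pos hs0]
      exact mul_le_mul_of_nonneg_left (hK u hu) hs0.le
    have h4 : 1 ≤ (r⁻¹ * ∑ r ∈ P, |1 * hs ω r.1|) ^ 3 * s ^ 3 := by
      rw [← mul_pow]
      refine one_le_pow₀ ?_
      have h5 : r⁻¹ * r ≤ r⁻¹ * (s * ∑ r ∈ P, |1 * hs ω r.1|) :=
        mul_le_mul_of_nonneg_left h3 (inv_nonneg.2 hr.le)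
      rw [inv_mul_cancel₀ hr.ne'] at h5
      linarith
    have h5 : ∑ v ∈ P, |s * hs ω v.1| ≤ ∑ r ∈ P, |1 * hs ω r.1| := by
      refine Finset.sum_le_sum fun v _ => ?_
      rw [abs_mul, abs_mul, abs_of_pos hs0, abs_one]
      exact mul_le_mul_of_nonneg_right hs1 (abs_nonneg _)
    have h6 : ‖VX P (fun u => s * hs ω u) - q fun u => s * hs ω u‖ ≤
        (C1 + C2) * (1 + ∑ r ∈ P, |1 * hs ω r.1|) ^ 2 := by
      rw [Real.norm_eq_abs]
      have h7 := h1 fun u => s * hs ω u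
      have h8 := h2 fun u => s * hs ω u
      have h9 : |VX P fun u => s * hs ω u| = VX P fun u => s * hs ω u :=
        abs_of_nonneg ENNReal.toReal_nonneg
      have h10 : (1 + ∑ v ∈ P, |s * hs ω v.1|) ^ 2 ≤ (1 + ∑ r ∈ P, |1 * hs ω r.1|) ^ 2 := by
        have : 0 ≤ ∑ v ∈ P, |s * hs ω v.1| := Finset.sum_nonneg fun _ _ => abs_nonneg _
        gcongr
      calc |VX P (fun u => s * hs ω u) - q fun u => s * hs ω u|
          ≤ |VX P fun u => s * hs ω u| + |q fun u => s * hs ω u| := abs_sub _ _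
        _ ≤ C1 * (1 + ∑ v ∈ P, |s * hs ω v.1|) ^ 2 + C2 * (1 + ∑ v ∈ P, |s * hs ω v.1|) ^ 2 := by
          rw [h9]; exact add_le_add h7 h8
        _ = (C1 + C2) * (1 + ∑ v ∈ P, |s * hs ω v.1|) ^ 2 := by ring
        _ ≤ _ := mul_le_mul_of_nonneg_left h10 (by positivity)
    refine h6.trans ?_
    rw [mul_assoc]
    refine le_mul_of_one_le_right (by positivity) h4

/-- EXH -/
theorem exh : ExhStatement := by
  intro P Q qP qQ hP hQ hqP hqQ hiso
  obtain ⟨a0, a1, a2, ha⟩ := mean_q hqP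
  obtain ⟨b0, b1, b2, hb⟩ := mean_q hqQ
  obtain ⟨CP, hCP⟩ := rem_small hP hqP
  obtain ⟨CQ, hCQ⟩ := rem_small hQ hqQ
  have key : ∀ t : ℝ, 0 < t →
      ∫ ω, (VX P (fun u => Real.sqrt t * hs ω u) - qP fun u => Real.sqrt t * hs ω u) ∂PP
        - ∫ ω, (VX Q (fun u => Real.sqrt t * hs ω u) - qQ fun u => Real.sqrt t * hs ω u) ∂PP
        = (b0 - a0) + (b1 - a1) * Real.sqrt t + (b2 - a2) * Real.sqrt t ^ 2 := by
    intro t ht
    have e1 := heat_VX hP ht
    have e2 := heat_VX hQ ht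
    have e3 : ∫ ω, VX P (fun u => Real.sqrt t * hs ω u) ∂PP
        = ∫ ω, VX Q (fun u => Real.sqrt t * hs ω u) ∂PP := by
      rw [← e1, ← e2]
      simp only [hiso]
    rw [integral_sub (int_VX hP t) (ha t ht).1, integral_sub (int_VX hQ t) (hb t ht).1, e3,
      (ha t ht).2, (hb t ht).2]
    ring
  have hz : b0 - a0 = 0 ∧ b1 - a1 = 0 ∧ b2 - a2 = 0 := by
    refine poly_zero (C := CP + CQ) fun s hs0 hs1 => ?_
    have h1 := key (s ^ 2) (by positivity)
    rw [Real.sqrt_sq hs0.le] at h1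
    rw [← h1, add_mul]
    refine (abs_sub _ _).trans (add_le_add (hCP s hs0 hs1) (hCQ s hs0 hs1))
  intro t ht
  have h1 := key t ht
  rw [hz.1, hz.2.1, hz.2.2] at h1
  linarith

end Pool.Agent.XQ.H76
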