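import Pool.Agent.Helper36_XQ.Stmt5r

/-!
Squad XQ, part E4, module TCM: the flux as a difference of two masses (helper76).
-/

set_option autoImplicit false

namespace Pool.Agent.XQ.K4.H76

open MeasureTheory Complex Filter Topology Pool.Agent.H62T Pool.Agent.H16F Pool.Agent.XQ.K4
open scoped ENNReal NNReal

theorem ite_dec {α : Type*} {p : Prop} (i j : Decidable p) (a b : α) :
    @ite α p i a b = @ite α p j a b := by
  by_cases hp : p
  · rw [if_pos hp, if_pos hp]
  · rw [if_neg hp, if_neg hp]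

open Classical in
theorem chi_sub {C : Set ℂ} {x y : ℂ} (c : ℝ) : (chi C y - chi C x) * c
    = (if x ∉ C ∧ y ∈ C then c else 0) - if x ∈ C ∧ y ∉ C then c else 0 := by
  unfold chi
  by_cases h1 : x ∈ C <;> by_cases h2 : y ∈ C
  · simp [h1, h2]
  · simp [h1, h2]
  · simp [h1, h2]
  · simp [h1, h2]

theorem up_meas {C : Set ℂ} (hC : MeasurableSet C) :
    MeasurableSet {p : ℂ × ℂ | p.1 ∉ C ∧ p.2 ∈ C} :=
  (measurable_fst hC.compl).inter (measurable_snd hC)

theorem dn_meas {C : Set ℂ} (hC : MeasurableSet C) :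
    MeasurableSet {p : ℂ × ℂ | p.1 ∈ C ∧ p.2 ∉ C} :=
  (measurable_fst hC).inter (measurable_snd hC.compl)

open Classical in
theorem Ms_mono {n : ℕ} [NeZero n] (u : Fin 4 → ℂ) (h : Fin 4 → ℝ) (τ : Fin n → ℝ)
    {S S' : (Fin n → ℂ) → (Fin n → Finset (Fin 4)) → Prop} (hS : ∀ x A, S x A → S' x A) :
    Ms u h τ S ≤ Ms u h τ S' := by
  unfold Ms
  refine Finset.sum_le_sum fun A _ => lintegral_mono fun x => ?_
  show (if S x A then ENNReal.ofReal (wt u h τ x A) else 0)
    ≤ if S' x A then ENNReal.ofReal (wt u h τ x A) else 0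
  by_cases c : S x A
  · rw [if_pos c, if_pos (hS x A c)]
  · rw [if_neg c]
    exact zero_le

section Flux

variable (u : Fin 4 → ℂ) (h : Fin 4 → ℝ) {n : ℕ} [NeZero n] (τ : Fin n → ℝ)
  (hτ : ∀ j, 0 < τ j)

open Classical in
include hτ in
theorem flux_eq (T : (Fin n → Finset (Fin 4)) → Prop) (C : Set ℂ) (hC : MeasurableSet C)
    (hfin : Ms u h τ (fun _ A => T A) ≠ ⊤) :
    ∑ A : Fin n → Finset (Fin 4), ∫ x, (chi C (x 1) - chi C (x 0)) * (if T A then wt u h τ x A else 0)
      = (Ms u h τ (fun x A => T A ∧ x 0 ∉ C ∧ x 1 ∈ C)).toReal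
        - (Ms u h τ (fun x A => T A ∧ x 0 ∈ C ∧ x 1 ∉ C)).toReal := by
  have hwnn : ∀ x A, 0 ≤ wt u h τ x A := fun x A =>
    Finset.prod_nonneg fun j _ => kA_nonneg u h (hτ j) _ _ _
  have hT : ∀ A, T A → ∫⁻ x, ENNReal.ofReal (wt u h τ x A) ≠ ⊤ := by
    intro A hA hc
    apply hfin
    unfold Ms
    rw [ENNReal.sum_eq_top]
    exact ⟨A, Finset.mem_univ _, by simp only [if_pos hA]; exact hc⟩
  have hint : ∀ A, T A → Integrable fun x => wt u h τ x A := by
    intro A hA
    refine ⟨(wt_meas u h τ A).aestronglyMeasurable, ?_⟩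
    rw [hasFiniteIntegral_iff_ofReal (Eventually.of_forall fun x => hwnn x A)]
    exact lt_top_iff_ne_top.mpr (hT A hA)
  have hmp : Measurable fun x : Fin n → ℂ => (x 0, x 1) :=
    (measurable_pi_apply (0 : Fin n)).prodMk (measurable_pi_apply 1)
  have hm1 : MeasurableSet {x : Fin n → ℂ | x 0 ∉ C ∧ x 1 ∈ C} := hmp (up_meas hC)
  have hm2 : MeasurableSet {x : Fin n → ℂ | x 0 ∈ C ∧ x 1 ∉ C} := hmp (dn_meas hC)
  have key : ∀ (A : Fin n → Finset (Fin 4)) (P : (Fin n → ℂ) → Prop),
      MeasurableSet {x | P x} → T A → Integrable (fun x => if P x then wt u h τ x A else 0) ∧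
      ∫ x, (if P x then wt u h τ x A else 0)
        = (∫⁻ x, if T A ∧ P x then ENNReal.ofReal (wt u h τ x A) else 0).toReal := by
    intro A P hP hA
    have e1 : (fun x => if P x then wt u h τ x A else 0)
        = {x | P x}.indicator fun x => wt u h τ x A := by
      funext x
      rw [Set.indicator_apply]
      rfl
    constructor
    · rw [e1]
      exact (hint A hA).indicator hP
    · rw [integral_eq_lintegral_of_nonneg_ae]
      · congr 1
        refine lintegral_congr fun x => ?_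
        by_cases c : P x
        · rw [if_pos c, if_pos ⟨hA, c⟩]
        · rw [if_neg c, if_neg (fun h => c h.2), ENNReal.ofReal_zero]
      · refine Eventually.of_forall fun x => ?_
        show 0 ≤ if P x then wt u h τ x A else 0
        split_ifs
        · exact hwnn x A
        · exact le_rfl
      · rw [e1]
        exact ((hint A hA).indicator hP).aestronglyMeasurable
  have hfin' : ∀ (P : (Fin n → ℂ) → Prop) (A : Fin n → Finset (Fin 4)),
      (∫⁻ x, if T A ∧ P x then ENNReal.ofReal (wt u h τ x A) else 0) ≠ ⊤ := by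
    intro P A
    by_cases hA : T A
    · refine ne_top_of_le_ne_top (hT A hA) (lintegral_mono fun x => ?_)
      show (if T A ∧ P x then ENNReal.ofReal (wt u h τ x A) else 0) ≤ _
      split_ifs
      · exact le_rfl
      · exact zero_le
    · simp only [hA, false_and, if_false, lintegral_zero]
      exact ENNReal.zero_ne_top
  unfold Ms
  rw [ENNReal.toReal_sum, ENNReal.toReal_sum, ← Finset.sum_sub_distrib]
  · refine Finset.sum_congr rfl fun A _ => ?_
    by_cases hA : T A
    · obtain ⟨k1, k2⟩ := key A (fun x => x 0 ∉ C ∧ x 1 ∈ C) hm1 hA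
      obtain ⟨k3, k4⟩ := key A (fun x => x 0 ∈ C ∧ x 1 ∉ C) hm2 hA
      have e : ∀ x : Fin n → ℂ, (chi C (x 1) - chi C (x 0)) * (if T A then wt u h τ x A else 0)
          = (if x 0 ∉ C ∧ x 1 ∈ C then wt u h τ x A else 0)
            - if x 0 ∈ C ∧ x 1 ∉ C then wt u h τ x A else 0 := by
        intro x
        rw [if_pos hA, chi_sub]
      simp only [e]
      refine Eq.trans (integral_sub (Integrable.congr k1 (Eventually.of_forall fun x =>
        ite_dec _ _ _ _)) (Integrable.congr k3 (Eventually.of_forall fun x =>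
        ite_dec _ _ _ _))) ?_
      refine congrArg₂ (fun a b : ℝ => a - b) ?_ ?_
      · refine Eq.trans (integral_congr_ae (Eventually.of_forall fun x => ite_dec _ _ _ _))
          (k2.trans (congrArg ENNReal.toReal (lintegral_congr fun x => ite_dec _ _ _ _)))
      · refine Eq.trans (integral_congr_ae (Eventually.of_forall fun x => ite_dec _ _ _ _))
          (k4.trans (congrArg ENNReal.toReal (lintegral_congr fun x => ite_dec _ _ _ _)))
    · simp only [mul_zero, integral_zero, hA, false_and, if_false, lintegral_zero,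
        ENNReal.toReal_zero, sub_zero]
  · intro A _
    have := hfin' (fun x => x 0 ∈ C ∧ x 1 ∉ C) A
    refine fun hc => this ?_
    rw [← hc]
    exact lintegral_congr fun x => ite_dec _ _ _ _
  · intro A _
    have := hfin' (fun x => x 0 ∉ C ∧ x 1 ∈ C) A
    refine fun hc => this ?_
    rw [← hc]
    exact lintegral_congr fun x => ite_dec _ _ _ _

end Flux

theorem f4_vis {n : ℕ} [NeZero n] {O E : Finset (Fin 4)} {A : Fin n → Finset (Fin 4)}
    (hA : F4 O A ∧ ∀ j, Disjoint (A j) E) : Vis (O ∪ {2, 3}) E A := by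
  obtain ⟨⟨a, b, ha, hab, hb, h3, h2, hO⟩, hd⟩ := hA
  refine ⟨fun s hs => ?_, hd⟩
  rw [Finset.mem_union, Finset.mem_insert, Finset.mem_singleton] at hs
  rcases hs with hs | rfl | rfl
  · obtain ⟨l, -, -, hl⟩ := hO s hs
    exact ⟨_, hl⟩
  · exact ⟨_, h2⟩
  · exact ⟨_, h3⟩

/-- module TCM -/
theorem tcm : TcmStatement := by
  classical
  intro u h n _ τ O E C hu hn hτ hC hfin
  have hfT : Ms u h τ (fun _ A => F4 O A ∧ ∀ j, Disjoint (A j) E) ≠ ⊤ :=
    ne_top_of_le_ne_top hfin (Ms_mono u h τ fun _ A hA => f4_vis hA)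
  refine ⟨ne_top_of_le_ne_top hfT (Ms_mono u h τ fun _ A hA => hA.1),
    ne_top_of_le_ne_top hfT (Ms_mono u h τ fun _ A hA => hA.1), ?_⟩
  refine Eq.trans ?_ (flux_eq u h τ hτ (fun A => F4 O A ∧ ∀ j, Disjoint (A j) E) C hC hfT)
  unfold TC4
  refine Finset.sum_congr rfl fun A _ => integral_congr_ae (Eventually.of_forall fun x => ?_)
  exact congrArg (fun c : ℝ => (chi C (x 1) - chi C (x 0)) * c) (ite_dec _ _ _ _)

end Pool.Agent.XQ.K4.H76
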